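import Pool.Agent.helper69.GR2B.Spec

/-!
# Project gb: (MP_af9036_an, MP_70a088_an), module BCOR (assembly of the Core Theorem for n = 2)
-/

set_option autoImplicit false

open Complex Metric Set Filter Topology MeasureTheory
open MPS (om)
open PPS (pre TT fd)
open XPS (Df er dens tau)
open Pool.Agent.helper16.Multibrot

noncomputable section

namespace GR

theorem BCOR_SS (n : ℕ) (c : ℂ) (p : ℕ) (hp : 1 ≤ p) (hA : A n c 1 = 1) : 1 ≤ SS n c p := by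
  have h1 : ∀ i ∈ Finset.Icc 1 p, 0 ≤ ∑ j ∈ Finset.Icc 1 p, ‖A n c j‖ / ‖A n c i‖ :=
    fun i _ => Finset.sum_nonneg fun j _ => by positivity
  have hmem : 1 ∈ Finset.Icc 1 p := Finset.mem_Icc.2 ⟨le_refl _, hp⟩
  have h2 := Finset.single_le_sum h1 hmem
  have h3 := Finset.single_le_sum (f := fun j => ‖A n c j‖ / ‖A n c 1‖)
    (fun j _ => by positivity) hmem
  have h4 : ‖A n c 1‖ / ‖A n c 1‖ = 1 := by rw [hA, norm_one, div_one]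
  have h5 : ‖A n c 1‖ / ‖A n c 1‖ ≤ ∑ j ∈ Finset.Icc 1 p, ‖A n c j‖ / ‖A n c 1‖ := h3
  rw [h4] at h5
  exact h5.trans h2

/-- the numerical end, first alternative -/
theorem BCOR_end1 (X C CE κ L c₀ z s : ℝ) (hC : 1 ≤ C) (hc₀ : 0 < c₀) (hz : 0 < z)
    (hs : s = X / (16 * C ^ 2) * z) (h : s * c₀ ^ 2 ≤ 2 * (3 * (CE * κ * z * L))) :
    X ≤ 96 * C ^ 2 * CE / c₀ ^ 2 * (κ * L) := by
  have hC0 : 0 < C := by linarith
  rw [hs] at h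
  have e1 : X / (16 * C ^ 2) * z * c₀ ^ 2 = z * (X / (16 * C ^ 2) * c₀ ^ 2) := by ring
  have e2 : 2 * (3 * (CE * κ * z * L)) = z * (6 * (CE * κ * L)) := by ring
  rw [e1, e2] at h
  have h1 := le_of_mul_le_mul_left h hz
  rw [div_mul_eq_mul_div, div_le_iff₀ (by positivity)] at h1
  rw [div_mul_eq_mul_div, le_div_iff₀ (by positivity)]
  linarith

/-- the numerical end, second alternative -/
theorem BCOR_end2 (X C CE κ L c₀ z s N K₁ W : ℝ) (hC : 1 ≤ C) (hc₀ : 0 < c₀) (hz : 0 < z)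
    (hCE : 0 < CE) (hκ : 0 < κ) (hL : 0 < L) (hN : 0 ≤ N) (hNK : N ≤ K₁ * W)
    (hs : s = X / (16 * C ^ 2) * z) (h : s * c₀ ^ 4 ≤ 10 ^ 16 * (3 * (CE * κ * z * L)) * N ^ 4) :
    X ≤ 48 * 10 ^ 16 * C ^ 2 * CE * K₁ ^ 4 / c₀ ^ 4 * (κ * L * W ^ 4) := by
  have hC0 : 0 < C := by linarith
  rw [hs] at h
  have e1 : X / (16 * C ^ 2) * z * c₀ ^ 4 = z * (X / (16 * C ^ 2) * c₀ ^ 4) := by ring
  have e2 : 10 ^ 16 * (3 * (CE * κ * z * L)) * N ^ 4 = z * (3 * 10 ^ 16 * (CE * κ * L) * N ^ 4) := by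
    ring
  rw [e1, e2] at h
  have h1 := le_of_mul_le_mul_left h hz
  rw [div_mul_eq_mul_div, div_le_iff₀ (by positivity)] at h1
  have h2 : N ^ 4 ≤ (K₁ * W) ^ 4 := pow_le_pow_left₀ hN hNK 4
  rw [mul_pow] at h2
  have h3 : 3 * 10 ^ 16 * (CE * κ * L) * N ^ 4 ≤ 3 * 10 ^ 16 * (CE * κ * L) * (K₁ ^ 4 * W ^ 4) :=
    mul_le_mul_of_nonneg_left h2 (by positivity)
  have h4 : 3 * 10 ^ 16 * (CE * κ * L) * N ^ 4 * (16 * C ^ 2) ≤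
      3 * 10 ^ 16 * (CE * κ * L) * (K₁ ^ 4 * W ^ 4) * (16 * C ^ 2) :=
    mul_le_mul_of_nonneg_right h3 (by positivity)
  rw [div_mul_eq_mul_div, le_div_iff₀ (by positivity)]
  calc X * c₀ ^ 4 ≤ _ := h1
    _ ≤ _ := h4
    _ = _ := by ring

theorem BCOR (hKO1 : V3.KO1_stmt) (hKO3 : V3.KO3_stmt) (hNAT : NAT_stmt) (hMSB : MSB_stmt)
    (hERI : ERI_stmt) (hENG : ENG_stmt) (hTOW : TOW_stmt) (hBCI : BCI_stmt) (hBCF : BCF_stmt)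
    (hBAB : BAB_stmt) (hBNN : BNN_stmt) : BCOR_stmt := by
  obtain ⟨C, hC1, hC⟩ := hKO1
  have hKQ : KQ C := ⟨hC1, hC⟩
  obtain ⟨D, hD1, hD⟩ := hKO3 (1 / 2) (by norm_num) (by norm_num)
  have hKD : KD D := by
    refine ⟨hD1, ?_⟩
    intro G a r hr hdiff hinj x hx
    refine ((hD G a r hr hdiff hinj).2 x ?_).2.2.2
    rw [show (1 - 1 / 2) * r = r / 2 by ring]
    exact hx
  have hC0 : 0 < C := by linarith
  obtain ⟨X₁, c₀, hX₁, hc₀, hbci⟩ := hBCI C D hKQ hKD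
  obtain ⟨CE, hCE, heri⟩ := hERI
  have h8 : 1 ≤ 8 * C * (1 + D) := by nlinarith
  obtain ⟨K₁, hK₁, hbnn⟩ := hBNN (1 + Real.log (8 * C * (1 + D))) (by
    have := Real.log_nonneg h8
    linarith)
  have t1 : 0 ≤ X₁ + 128 * C := by linarith
  have t2 : 0 ≤ 10 ^ 12 * K₁ ^ 2 / c₀ := by positivity
  have t3 : 0 ≤ 96 * C ^ 2 * CE / c₀ ^ 2 := by positivity
  have t4 : 0 ≤ 48 * 10 ^ 16 * C ^ 2 * CE * K₁ ^ 4 / c₀ ^ 4 := by positivity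
  refine ⟨(X₁ + 128 * C) + 10 ^ 12 * K₁ ^ 2 / c₀ + 96 * C ^ 2 * CE / c₀ ^ 2 +
    48 * 10 ^ 16 * C ^ 2 * CE * K₁ ^ 4 / c₀ ^ 4, by linarith, ?_⟩
  intro c p q κ hret hκ hS
  obtain ⟨-, -, -, -, -, -, hA1, -, -, -, hnat⟩ := hNAT 2 c le_rfl
  obtain ⟨hR0, hR2, hX1, hRX, hA0, hxcp, hxc⟩ := hnat p q hret
  have hp1 : 1 ≤ p := by have := hret.q1; have := hret.qp; omega
  have hSS := BCOR_SS 2 c p hp1 hA1
  have hlogS : 0 ≤ Real.log (SS 2 c p) := Real.log_nonneg hSS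
  obtain ⟨N, hN1, hN2, hN3⟩ := hbnn (SS 2 c p) hSS
  have hlog : 0 ≤ Real.log (X 2 c p q) := Real.log_nonneg hX1.le
  have hW0 : 0 ≤ Real.log (1 + Real.log (SS 2 c p)) := Real.log_nonneg (by linarith)
  obtain ⟨W, hW⟩ : ∃ W, W = 1 + Real.log (1 + Real.log (SS 2 c p)) := ⟨_, rfl⟩
  obtain ⟨L, hL⟩ : ∃ L, L = 1 + Real.log (X 2 c p q) := ⟨_, rfl⟩
  rw [← hW] at hN3 ⊢
  rw [← hL] at hS ⊢
  have hW1 : 1 ≤ W := by rw [hW]; linarith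
  have hL1 : 1 ≤ L := by rw [hL]; linarith
  have hκ0 : 0 < κ := by linarith
  have hW4 : 1 ≤ W ^ 4 := one_le_pow₀ hW1
  have hκL : 1 ≤ κ * L := by nlinarith
  have hfac : κ * L ≤ κ * L * W ^ 4 := le_mul_of_one_le_right (by linarith) hW4
  have hfac1 : 1 ≤ κ * L * W ^ 4 := hκL.trans hfac
  have hgoal : ∀ k : ℝ, 0 ≤ k → k ≤ (X₁ + 128 * C) + 10 ^ 12 * K₁ ^ 2 / c₀ +
      96 * C ^ 2 * CE / c₀ ^ 2 + 48 * 10 ^ 16 * C ^ 2 * CE * K₁ ^ 4 / c₀ ^ 4 →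
      X 2 c p q ≤ k * (κ * L * W ^ 4) →
      X 2 c p q ≤ ((X₁ + 128 * C) + 10 ^ 12 * K₁ ^ 2 / c₀ + 96 * C ^ 2 * CE / c₀ ^ 2 +
        48 * 10 ^ 16 * C ^ 2 * CE * K₁ ^ 4 / c₀ ^ 4) * κ * L * W ^ 4 := by
    intro k _ hk h
    calc X 2 c p q ≤ k * (κ * L * W ^ 4) := h
      _ ≤ ((X₁ + 128 * C) + 10 ^ 12 * K₁ ^ 2 / c₀ + 96 * C ^ 2 * CE / c₀ ^ 2 +
        48 * 10 ^ 16 * C ^ 2 * CE * K₁ ^ 4 / c₀ ^ 4) * (κ * L * W ^ 4) :=
        mul_le_mul_of_nonneg_right hk (by linarith)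
      _ = _ := by ring
  by_cases hsmall : X 2 c p q ≤ X₁ + 128 * C
  · refine hgoal (X₁ + 128 * C) t1 (by linarith) ?_
    calc X 2 c p q ≤ (X₁ + 128 * C) * 1 := by linarith
      _ ≤ _ := mul_le_mul_of_nonneg_left hfac1 t1
  rw [not_le] at hsmall
  by_cases hsmall2 : c₀ * X 2 c p q ≤ 10 ^ 12 * (N : ℝ) ^ 2
  · refine hgoal (10 ^ 12 * K₁ ^ 2 / c₀) t2 (by linarith) ?_
    have h1 : (N : ℝ) ^ 2 ≤ (K₁ * W) ^ 2 := pow_le_pow_left₀ (Nat.cast_nonneg N) hN3 2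
    rw [mul_pow] at h1
    have h2 : W ^ 2 ≤ κ * L * W ^ 4 := by
      have h3 : W ^ 2 ≤ W ^ 4 := pow_le_pow_right₀ hW1 (by norm_num)
      have h4 : W ^ 4 ≤ κ * L * W ^ 4 := le_mul_of_one_le_left (by linarith) hκL
      exact h3.trans h4
    rw [div_mul_eq_mul_div, le_div_iff₀ hc₀]
    calc X 2 c p q * c₀ = c₀ * X 2 c p q := mul_comm _ _
      _ ≤ 10 ^ 12 * (N : ℝ) ^ 2 := hsmall2
      _ ≤ 10 ^ 12 * (K₁ ^ 2 * W ^ 2) := by linarith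
      _ = 10 ^ 12 * K₁ ^ 2 * W ^ 2 := by ring
      _ ≤ 10 ^ 12 * K₁ ^ 2 * (κ * L * W ^ 4) := mul_le_mul_of_nonneg_left h2 (by positivity)
  rw [not_le] at hsmall2
  have hX16 : 16 * C ≤ X 2 c p q := by linarith
  have hX128 : 128 * C ≤ X 2 c p q := by linarith
  have hXX₁ : X₁ ≤ X 2 c p q := by linarith
  have hX2 : 2 ≤ X 2 c p q := by linarith
  have hXpos : 0 < X 2 c p q := by linarith
  obtain ⟨G, hG⟩ := hTOW 2 c p q hret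
  obtain ⟨hBm, hBi⟩ := hMSB 2 c p q
  have hZp : 0 < ‖Z 2 c p‖ := norm_pos_iff.2 (hret.ne0 p hp1 le_rfl)
  have hAp : 0 < ‖A 2 c p‖ := norm_pos_iff.2 (hA0 p hp1 (by omega))
  have hz : 0 < ‖Z 2 c p‖ / ‖A 2 c p‖ := by positivity
  have hε0 : 0 ≤ CE * κ * (‖Z 2 c p‖ / ‖A 2 c p‖) * L := by positivity
  have heri' := heri 2 c p q κ hret hX2 hκ (by rw [← hL]; exact hS)
  rw [← hL] at heri'
  obtain ⟨-, hDm, hem, hEg⟩ := hENG 2 c (B 2 c p q) (CE * κ * (‖Z 2 c p‖ / ‖A 2 c p‖) * L) le_rfl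
    hret.hc hBm hBi hε0 heri'
  have hE0 : 0 ≤ 3 * (CE * κ * (‖Z 2 c p‖ / ‖A 2 c p‖) * L) := by linarith
  have hsg : sg C 2 c p q = X 2 c p q / (16 * C ^ 2) * (‖Z 2 c p‖ / ‖A 2 c p‖) := by
    unfold sg
    rw [hRX]
    field_simp
  have hsg0 : 0 ≤ sg C 2 c p q := by
    rw [hsg]
    positivity
  rcases hbci c p q G _ hret hG hXX₁ hDm hem hEg hE0 with h | ⟨m, hm, ρ, ν, hρ1, hρ2, hν, hann⟩
  · refine hgoal (96 * C ^ 2 * CE / c₀ ^ 2) t3 (by linarith) ?_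
    have h1 := BCOR_end1 (X 2 c p q) C CE κ L c₀ _ _ hC1 hc₀ hz hsg h
    refine h1.trans ?_
    exact mul_le_mul_of_nonneg_left hfac t3
  · refine hgoal (48 * 10 ^ 16 * C ^ 2 * CE * K₁ ^ 4 / c₀ ^ 4) t4 (by linarith) ?_
    obtain ⟨m', hm', F, hFd, hFa, hFw⟩ := hBCF C D 2 c p q G hKQ hKD hret hG hX128
    have hlogM : Real.log (2 * (4 * C * (1 + D) * SS 2 c p)) ≤ 2 ^ N := by
      have h1 : 2 * (4 * C * (1 + D) * SS 2 c p) = 8 * C * (1 + D) * SS 2 c p := by ring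
      rw [h1, Real.log_mul (by linarith) (by linarith)]
      refine le_trans ?_ hN2
      have h2 := Real.log_nonneg h8
      nlinarith
    have key := hBAB C c p q G _ m m' N ρ (4 * C * (1 + D) * SS 2 c p) ν F hKQ hret hG hX16 hBm
      hDm hem hEg hE0 hm hm' hN1 (by linarith) hρ2 (by
        have : c₀ * X 2 c p q ≤ ρ * X 2 c p q := mul_le_mul_of_nonneg_right hρ1 hXpos.le
        linarith) hlogM hν hann hFd hFa hFw
    refine BCOR_end2 (X 2 c p q) C CE κ L c₀ _ _ N K₁ W hC1 hc₀ hz (by linarith) hκ0 (by linarith)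
      (Nat.cast_nonneg N) hN3 hsg ?_
    refine le_trans ?_ key
    exact mul_le_mul_of_nonneg_left (pow_le_pow_left₀ hc₀.le hρ1 4) hsg0

end GR
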